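import Mathlib

set_option autoImplicit false

/-!
# A 2-arc-strong split digraph of minimum degree 5 without a strong arc decomposition

This answers Q1 of MP_cb4251 in the negative. The digraph has 6 vertices and 16 arcs; the
independent part is `{0, 1}` and the semicomplete part is `{2, 3, 4, 5}`. Five of its minimum cuts
consist of two arcs each, and the corresponding pairs of arcs form a cycle of length five:
`{14, 24}` (arcs entering `4`), `{24, 20}` (arcs leaving `2`), `{20, 45}` (leaving `{1, 2, 3, 4}`),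
`{45, 32}` (leaving `{1, 3, 4}`) and `{32, 14}` (leaving `{1, 3}`). In a strong arc decomposition
the two arcs of each pair would be in different parts, which is impossible on an odd cycle.
-/

namespace Pool.Agent.Results.MP_cb4251_co.SixVertexCounterexample

variable {V : Type} [DecidableEq V]

/-- The digraph with vertex set `V` and arc set `A` is strong: there is a directed path from every
vertex to every vertex. -/
def Strong (A : Finset (V × V)) : Prop :=
  ∀ u v : V, Relation.ReflTransGen (fun a b => (a, b) ∈ A) u v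

/-- The digraph with arc set `A` is `k`-arc-strong: it stays strong after the deletion of any set
of fewer than `k` arcs. -/
def ArcStrong (k : ℕ) (A : Finset (V × V)) : Prop :=
  ∀ X : Finset (V × V), X ⊆ A → X.card < k → Strong (A \ X)

/-- The digraph with arc set `A` is a split digraph: `V` is the union of a set `V₁` without arcs
inside, and its complement, in which every two distinct vertices are joined by at least one arc. -/
def IsSplit (A : Finset (V × V)) : Prop :=
  ∃ V₁ : Finset V, (∀ u ∈ V₁, ∀ v ∈ V₁, (u, v) ∉ A) ∧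
    ∀ u v : V, u ∉ V₁ → v ∉ V₁ → u ≠ v → (u, v) ∈ A ∨ (v, u) ∈ A

/-- The degree of `v`: its out-degree plus its in-degree. -/
def degree (A : Finset (V × V)) (v : V) : ℕ :=
  (A.filter (fun e => e.1 = v)).card + (A.filter (fun e => e.2 = v)).card

/-- The arc set `A` has a strong arc decomposition: a partition into two parts each of which is
strong on all of `V`. -/
def HasStrongArcDecomposition (A : Finset (V × V)) : Prop :=
  ∃ A₁ A₂ : Finset (V × V), A₁ ∪ A₂ = A ∧ Disjoint A₁ A₂ ∧ Strong A₁ ∧ Strong A₂

/-- The arcs of the counterexample. -/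
def arcs : Finset (Fin 6 × Fin 6) :=
  {(0, 2), (0, 3), (0, 5), (1, 3), (1, 4), (2, 0), (2, 4), (3, 1), (3, 2), (4, 1), (4, 3), (4, 5),
    (5, 0), (5, 1), (5, 2), (5, 3)}

/-- One step of the search. -/
def step (A : Finset (Fin 6 × Fin 6)) (S : Finset (Fin 6)) : Finset (Fin 6) :=
  S ∪ Finset.univ.filter (fun w => ∃ s ∈ S, (s, w) ∈ A)

theorem reach_sound (A : Finset (Fin 6 × Fin 6)) (u : Fin 6) : ∀ n : ℕ, ∀ v : Fin 6,
    v ∈ (step A)^[n] {u} → Relation.ReflTransGen (fun a b => (a, b) ∈ A) u v := by
  intro n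
  induction n with
  | zero =>
    intro v hv
    rw [Function.iterate_zero, id, Finset.mem_singleton] at hv
    rw [hv]
  | succ n ih =>
    intro v hv
    rw [Function.iterate_succ_apply', step, Finset.mem_union] at hv
    rcases hv with hv | hv
    · exact ih v hv
    · obtain ⟨s, hs, hsv⟩ := (Finset.mem_filter.1 hv).2
      exact (ih s hs).tail hsv

theorem split_check : ∀ u : Fin 6, u ∉ ({0, 1} : Finset (Fin 6)) →
    ∀ v : Fin 6, v ∉ ({0, 1} : Finset (Fin 6)) → u = v ∨ (u, v) ∈ arcs ∨ (v, u) ∈ arcs := by
  decide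

theorem reach_erase : ∀ e : Fin 6 × Fin 6, ∀ u v : Fin 6,
    v ∈ (step (arcs.erase e))^[5] {u} := by
  decide +kernel

/-- A strong digraph has an arc leaving every set with a vertex inside and a vertex outside. -/
theorem exists_leaving {A : Finset (V × V)} (hA : Strong A) (S : Finset V) {u v : V} (hu : u ∈ S)
    (hv : v ∉ S) : ∃ e ∈ A, e.1 ∈ S ∧ e.2 ∉ S := by
  by_contra hcon
  push Not at hcon
  have key : ∀ w, Relation.ReflTransGen (fun a b => (a, b) ∈ A) u w → w ∈ S := by
    intro w hw
    induction hw with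
    | refl => exact hu
    | tail _ hbc ih => exact hcon _ hbc ih
  exact hv (key v (hA u v))

/-- If the arcs leaving `S` are only `a` and `b` then the two parts of a strong arc decomposition
contain one of them each. -/
theorem pair {A₁ A₂ : Finset (Fin 6 × Fin 6)} (hU : A₁ ∪ A₂ = arcs) (hD : Disjoint A₁ A₂)
    (h₁ : Strong A₁) (h₂ : Strong A₂) (S : Finset (Fin 6)) (a b : Fin 6 × Fin 6)
    (hS : arcs.filter (fun e => e.1 ∈ S ∧ e.2 ∉ S) = {a, b}) (u v : Fin 6) (hu : u ∈ S)
    (hv : v ∉ S) : (a ∈ A₁ ↔ b ∉ A₁) := by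
  have key : ∀ B ⊆ arcs, Strong B → a ∈ B ∨ b ∈ B := by
    intro B hB hBs
    obtain ⟨e, he, h1, h2⟩ := exists_leaving hBs S hu hv
    have : e ∈ arcs.filter (fun e => e.1 ∈ S ∧ e.2 ∉ S) := Finset.mem_filter.2 ⟨hB he, h1, h2⟩
    rw [hS, Finset.mem_insert, Finset.mem_singleton] at this
    rcases this with rfl | rfl
    · exact Or.inl he
    · exact Or.inr he
  have k1 := key A₁ (hU ▸ Finset.subset_union_left) h₁
  have k2 := key A₂ (hU ▸ Finset.subset_union_right) h₂
  have d : ∀ x, x ∈ A₁ → x ∈ A₂ → False := fun x hx hx' => Finset.disjoint_left.1 hD hx hx'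
  constructor
  · intro ha hb
    rcases k2 with h | h
    · exact d _ ha h
    · exact d _ hb h
  · intro hb
    rcases k1 with h | h
    · exact h
    · exact absurd h hb

/-- There is a 2-arc-strong split digraph (on 6 vertices) in which every vertex has degree at
least 5 and which has no strong arc decomposition. -/
theorem result : ∃ A : Finset (Fin 6 × Fin 6), (∀ v : Fin 6, (v, v) ∉ A) ∧ IsSplit A ∧
    ArcStrong 2 A ∧ (∀ v : Fin 6, 5 ≤ degree A v) ∧ ¬ HasStrongArcDecomposition A := by
  refine ⟨arcs, by decide, ⟨{0, 1}, by decide, fun u v hu hv huv =>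
    (split_check u hu v hv).resolve_left huv⟩, ?_, by decide, ?_⟩
  · intro X hX hcard u v
    have hsub : ∃ e, arcs.erase e ⊆ arcs \ X := by
      rcases Nat.lt_or_ge X.card 1 with h | h
      · have : X = ∅ := Finset.card_eq_zero.1 (by omega)
        exact ⟨(0, 0), by rw [this, Finset.sdiff_empty]; exact Finset.erase_subset _ _⟩
      · obtain ⟨e, he⟩ := Finset.card_eq_one.1 (by omega : X.card = 1)
        exact ⟨e, by rw [he, Finset.sdiff_singleton_eq_erase]⟩
    obtain ⟨e, he⟩ := hsub
    exact Relation.ReflTransGen.mono (fun a b hab => he hab) _ _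
      (reach_sound _ u 5 v (reach_erase e u v))
  · rintro ⟨A₁, A₂, hU, hD, h₁, h₂⟩
    have c1 := pair hU hD h₁ h₂ {0, 1, 2, 3, 5} (1, 4) (2, 4) (by decide) 0 4 (by decide)
      (by decide)
    have c2 := pair hU hD h₁ h₂ {2} (2, 4) (2, 0) (by decide) 2 4 (by decide) (by decide)
    have c3 := pair hU hD h₁ h₂ {1, 2, 3, 4} (2, 0) (4, 5) (by decide) 1 0 (by decide)
      (by decide)
    have c4 := pair hU hD h₁ h₂ {1, 3, 4} (4, 5) (3, 2) (by decide) 1 0 (by decide) (by decide)
    have c5 := pair hU hD h₁ h₂ {1, 3} (3, 2) (1, 4) (by decide) 1 0 (by decide) (by decide)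
    tauto

end Pool.Agent.Results.MP_cb4251_co.SixVertexCounterexample
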